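import Pool.Agent.K7.H49.ML.Stm
import Pool.Agent.H510R2.Div

set_option autoImplicit false

/-! Job FOUR of project ML: the fourth moment of the kernel. -/

open Finset

namespace Pool.Agent.K7.H4.ML

open Pool.Agent.K7.H49.ML

theorem g_nonneg (Λ θ : ℝ) : 0 ≤ g Λ θ := by
  unfold g
  exact inv_nonneg.2 (le_trans zero_le_one (le_max_left _ _))

theorem g_le_one (Λ θ : ℝ) : g Λ θ ≤ 1 := by
  unfold g
  exact inv_le_one_of_one_le₀ (le_max_left _ _)

theorem g_mono {Λ θ θ' : ℝ} (hΛ : 0 < Λ) (h : |θ'| ≤ |θ|) : g Λ θ ≤ g Λ θ' := by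
  unfold g
  apply inv_anti₀ (lt_of_lt_of_le zero_lt_one (le_max_left _ _))
  apply max_le_max le_rfl
  have := mul_le_mul_of_nonneg_left h hΛ.le
  linarith

theorem g_le {Λ θ t : ℝ} (hΛ : 0 < Λ) (ht : 0 < t) (h : t ≤ |θ|) : g Λ θ ≤ 2 / (Λ * t) := by
  unfold g
  have h1 : Λ * t / 2 ≤ max 1 (Λ * |θ| / 2) := by
    refine le_trans ?_ (le_max_right _ _)
    have := mul_le_mul_of_nonneg_left h hΛ.le
    linarith
  have h2 : 0 < Λ * t / 2 := by positivity
  calc (max 1 (Λ * |θ| / 2))⁻¹ ≤ (Λ * t / 2)⁻¹ := inv_anti₀ h2 h1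
    _ = 2 / (Λ * t) := by rw [inv_div]

/-- `|log m - log m'| ≥ |m - m'| / P` for `m, m' ≤ P` -/
theorem log_sub {P m m' : ℕ} (hm : 1 ≤ m) (hm' : 1 ≤ m') (h : m ≤ P) (h' : m' ≤ P) :
    |(m : ℝ) - m'| / P ≤ |Real.log m - Real.log m'| := by
  wlog hle : m' ≤ m generalizing m m' with H
  · have := H hm' hm h' h (by omega)
    rw [abs_sub_comm (m : ℝ), abs_sub_comm (Real.log m)]
    exact this
  have hm0 : (0 : ℝ) < m := by exact_mod_cast hm
  have hm0' : (0 : ℝ) < m' := by exact_mod_cast hm'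
  have hP0 : (0 : ℝ) < P := lt_of_lt_of_le hm0 (by exact_mod_cast h)
  have hle' : (m' : ℝ) ≤ m := by exact_mod_cast hle
  rw [abs_of_nonneg (by linarith), abs_of_nonneg (by
    have := Real.log_le_log hm0' hle'
    linarith)]
  have h1 : Real.log ((m' : ℝ) / m) ≤ (m' : ℝ) / m - 1 := by
    have := Real.log_le_sub_one_of_pos (show (0 : ℝ) < (m' : ℝ) / m by positivity)
    linarith
  rw [Real.log_div hm0'.ne' hm0.ne'] at h1
  have h2 : ((m : ℝ) - m') / P ≤ ((m : ℝ) - m') / m := by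
    apply div_le_div_of_nonneg_left (by linarith) hm0
    exact_mod_cast h
  have h3 : ((m : ℝ) - m') / m = 1 - (m' : ℝ) / m := by
    field_simp
  linarith

/-- the sum over all products -/
theorem sum_prod {P m : ℕ} (hm : 1 ≤ m) (h : m ≤ P) {Λ : ℝ} (hΛ : 0 < Λ) :
    ∑ k ∈ Icc 1 P, g Λ (Real.log m - Real.log k) ≤
      1 + 4 * (P : ℝ) / Λ * (1 + Real.log P) := by
  have hP : 1 ≤ P := le_trans hm h
  have hP0 : (0 : ℝ) < P := by exact_mod_cast hP
  have hmem : m ∈ Icc 1 P := mem_Icc.2 ⟨hm, h⟩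
  rw [← Finset.add_sum_erase _ _ hmem]
  have h0 : g Λ (Real.log m - Real.log m) ≤ 1 := g_le_one _ _
  -- bound of the harmonic sums
  have hharm : ∑ j ∈ Icc 1 P, (1 : ℝ) / j ≤ 1 + Real.log P := by
    have := harmonic_le_one_add_log P
    rw [harmonic_eq_sum_Icc] at this
    push_cast at this
    simpa [one_div] using this
  have h1 : ∑ k ∈ (Icc 1 P).erase m, g Λ (Real.log m - Real.log k) ≤
      ∑ k ∈ (Icc 1 P).erase m, 2 * (P : ℝ) / Λ * (1 / |(m : ℝ) - k|) := by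
    apply Finset.sum_le_sum
    intro k hk
    rw [mem_erase, mem_Icc] at hk
    obtain ⟨hne, hk1, hk2⟩ := hk
    have hne' : (m : ℝ) - k ≠ 0 := by
      intro h0
      apply hne
      have : (m : ℝ) = k := by linarith
      exact_mod_cast this.symm
    have hpos : 0 < |(m : ℝ) - k| := abs_pos.2 hne'
    refine (g_le hΛ (div_pos hpos hP0) (log_sub hm hk1 h hk2)).trans (le_of_eq ?_)
    field_simp
  have h2 : ∑ k ∈ (Icc 1 P).erase m, (1 : ℝ) / |(m : ℝ) - k| ≤ 2 * (1 + Real.log P) := by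
    -- split at m
    have hsub : (Icc 1 P).erase m ⊆ (Icc 1 (m - 1)) ∪ (Icc (m + 1) P) := by
      intro k hk
      rw [mem_erase, mem_Icc] at hk
      rw [mem_union, mem_Icc, mem_Icc]
      omega
    have hle : ∑ k ∈ (Icc 1 P).erase m, (1 : ℝ) / |(m : ℝ) - k| ≤
        ∑ k ∈ (Icc 1 (m - 1)) ∪ (Icc (m + 1) P), (1 : ℝ) / |(m : ℝ) - k| :=
      Finset.sum_le_sum_of_subset_of_nonneg hsub (fun _ _ _ => by positivity)
    have hdis : Disjoint (Icc 1 (m - 1)) (Icc (m + 1) P) := by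
      rw [Finset.disjoint_left]
      intro k hk hk'
      rw [mem_Icc] at hk hk'
      omega
    rw [Finset.sum_union hdis] at hle
    have ha : ∑ k ∈ Icc 1 (m - 1), (1 : ℝ) / |(m : ℝ) - k| ≤ ∑ j ∈ Icc 1 P, (1 : ℝ) / j := by
      calc ∑ k ∈ Icc 1 (m - 1), (1 : ℝ) / |(m : ℝ) - k|
          = ∑ j ∈ Icc 1 (m - 1), (1 : ℝ) / j := by
            refine Finset.sum_bij' (fun k _ => m - k) (fun j _ => m - j) ?_ ?_ ?_ ?_ ?_
            · intro k hk
              rw [mem_Icc] at hk ⊢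
              omega
            · intro k hk
              rw [mem_Icc] at hk ⊢
              omega
            · intro k hk
              rw [mem_Icc] at hk
              show m - (m - k) = k
              omega
            · intro k hk
              rw [mem_Icc] at hk
              show m - (m - k) = k
              omega
            · intro k hk
              rw [mem_Icc] at hk
              have : ((m - k : ℕ) : ℝ) = (m : ℝ) - k := by
                rw [Nat.cast_sub (by omega)]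
              rw [this, abs_of_nonneg]
              rw [← this]
              positivity
        _ ≤ ∑ j ∈ Icc 1 P, (1 : ℝ) / j := by
            apply Finset.sum_le_sum_of_subset_of_nonneg
            · intro k hk
              rw [mem_Icc] at hk ⊢
              omega
            · intro _ _ _
              positivity
    have hb : ∑ k ∈ Icc (m + 1) P, (1 : ℝ) / |(m : ℝ) - k| ≤ ∑ j ∈ Icc 1 P, (1 : ℝ) / j := by
      calc ∑ k ∈ Icc (m + 1) P, (1 : ℝ) / |(m : ℝ) - k|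
          = ∑ j ∈ Icc 1 (P - m), (1 : ℝ) / j := by
            refine Finset.sum_bij' (fun k _ => k - m) (fun j _ => j + m) ?_ ?_ ?_ ?_ ?_
            · intro k hk
              rw [mem_Icc] at hk ⊢
              omega
            · intro k hk
              rw [mem_Icc] at hk ⊢
              omega
            · intro k hk
              rw [mem_Icc] at hk
              show k - m + m = k
              omega
            · intro k hk
              show k + m - m = k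
              omega
            · intro k hk
              rw [mem_Icc] at hk
              have : ((k - m : ℕ) : ℝ) = (k : ℝ) - m := by
                rw [Nat.cast_sub (by omega)]
              rw [this, abs_sub_comm, abs_of_nonneg]
              rw [← this]
              positivity
        _ ≤ ∑ j ∈ Icc 1 P, (1 : ℝ) / j := by
            apply Finset.sum_le_sum_of_subset_of_nonneg
            · intro k hk
              rw [mem_Icc] at hk ⊢
              omega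
            · intro _ _ _
              positivity
    linarith
  rw [← Finset.mul_sum] at h1
  have h3 : 2 * (P : ℝ) / Λ * ∑ k ∈ (Icc 1 P).erase m, (1 : ℝ) / |(m : ℝ) - k| ≤
      2 * (P : ℝ) / Λ * (2 * (1 + Real.log P)) :=
    mul_le_mul_of_nonneg_left h2 (by positivity)
  have h4 : 2 * (P : ℝ) / Λ * (2 * (1 + Real.log P)) = 4 * (P : ℝ) / Λ * (1 + Real.log P) := by
    ring
  linarith

/-- the sum over two of the variables -/
theorem sum_pair {N : ℕ} {I : Finset ℕ} (hI : ∀ n ∈ I, 1 ≤ n ∧ n ≤ N) {m : ℕ}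
    (hm : 1 ≤ m) (h : m ≤ N * N) {Λ : ℝ} (hΛ : 0 < Λ) {D : ℝ} (hD0 : 0 ≤ D)
    (hD : ∀ k ∈ Icc 1 (N * N), (k.divisors.card : ℝ) ≤ D) :
    ∑ a ∈ I, ∑ b ∈ I, g Λ (Real.log m - Real.log (a * b : ℕ)) ≤
      D * (1 + 4 * ((N * N : ℕ) : ℝ) / Λ * (1 + Real.log (N * N : ℕ))) := by
  rw [← Finset.sum_product']
  have hmaps : ∀ p ∈ I ×ˢ I, p.1 * p.2 ∈ Icc 1 (N * N) := by
    intro p hp
    rw [mem_product] at hp
    obtain ⟨h1, h2⟩ := hI _ hp.1
    obtain ⟨h3, h4⟩ := hI _ hp.2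
    rw [mem_Icc]
    exact ⟨Nat.mul_pos h1 h3, Nat.mul_le_mul h2 h4⟩
  rw [← Finset.sum_fiberwise_of_maps_to hmaps]
  have h1 : ∀ k ∈ Icc 1 (N * N), ∑ p ∈ (I ×ˢ I).filter (fun p => p.1 * p.2 = k),
      g Λ (Real.log m - Real.log (p.1 * p.2 : ℕ)) ≤ D * g Λ (Real.log m - Real.log k) := by
    intro k hk
    have h2 : ∑ p ∈ (I ×ˢ I).filter (fun p => p.1 * p.2 = k),
        g Λ (Real.log m - Real.log (p.1 * p.2 : ℕ)) =
        ((I ×ˢ I).filter (fun p => p.1 * p.2 = k)).card * g Λ (Real.log m - Real.log k) := by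
      rw [Finset.sum_congr rfl (g := fun _ => g Λ (Real.log m - Real.log k))]
      · rw [Finset.sum_const, nsmul_eq_mul]
      · intro p hp
        rw [mem_filter] at hp
        rw [hp.2]
    rw [h2]
    apply mul_le_mul_of_nonneg_right _ (g_nonneg _ _)
    refine le_trans ?_ (hD k hk)
    norm_cast
    apply Finset.card_le_card_of_injOn (fun p => p.1)
    · intro p hp
      rw [Finset.mem_coe, mem_filter] at hp
      rw [Finset.mem_coe, Nat.mem_divisors]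
      rw [mem_Icc] at hk
      exact ⟨⟨p.2, hp.2.symm⟩, by omega⟩
    · intro p hp p' hp' hpp
      rw [Finset.mem_coe, mem_filter] at hp hp'
      have h3 : p.1 = p'.1 := hpp
      have h4 : 0 < p.1 := (hI _ (mem_product.1 hp.1).1).1
      have h5 : p.1 * p.2 = p.1 * p'.2 := by
        rw [hp.2]
        rw [h3, hp'.2]
      exact Prod.ext h3 (Nat.eq_of_mul_eq_mul_left h4 h5)
  calc _ ≤ ∑ k ∈ Icc 1 (N * N), D * g Λ (Real.log m - Real.log k) := Finset.sum_le_sum h1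
    _ = D * ∑ k ∈ Icc 1 (N * N), g Λ (Real.log m - Real.log k) := by rw [Finset.mul_sum]
    _ ≤ _ := mul_le_mul_of_nonneg_left (sum_prod hm h hΛ) hD0

theorem stFour : StFour := by
  intro ε hε
  obtain ⟨C₁, hC₁, hdiv⟩ := Pool.Agent.H510R2.divisor_bound (ε / 4) (by positivity)
  -- `1 + log (N^2) ≤ C₂ N^(ε/2)`
  set C₂ : ℝ := 1 + 4 / ε with hC₂
  have hC₂1 : 1 ≤ C₂ := by
    rw [hC₂]
    have : 0 ≤ 4 / ε := by positivity
    linarith
  have hlog : ∀ N : ℕ, 1 ≤ N → 1 + Real.log (N * N : ℕ) ≤ C₂ * (N : ℝ) ^ (ε / 2) := by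
    intro N hN
    have hN0 : (0 : ℝ) < N := by exact_mod_cast hN
    have hN1 : (1 : ℝ) ≤ N := by exact_mod_cast hN
    have h1 : Real.log (N * N : ℕ) = 2 * Real.log N := by
      push_cast
      rw [Real.log_mul hN0.ne' hN0.ne']
      ring
    have h2 : Real.log N ≤ (N : ℝ) ^ (ε / 2) / (ε / 2) := Real.log_le_rpow_div hN0.le (by positivity)
    have h3 : (1 : ℝ) ≤ (N : ℝ) ^ (ε / 2) := Real.one_le_rpow hN1 (by positivity)
    rw [h1, hC₂]
    have h4 : (N : ℝ) ^ (ε / 2) / (ε / 2) = 2 / ε * (N : ℝ) ^ (ε / 2) := by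
      field_simp
    rw [h4] at h2
    have h5 : (1 + 4 / ε) * (N : ℝ) ^ (ε / 2) = (N : ℝ) ^ (ε / 2) + 2 * (2 / ε * (N : ℝ) ^ (ε / 2)) := by
      ring
    rw [h5]
    linarith
  refine ⟨max 1 (C₁ * (4 * C₂)), le_max_left _ _, ?_⟩
  intro N hN I hI Λ u hΛ hu
  have hN0 : (0 : ℝ) < N := by exact_mod_cast hN
  have hN1 : (1 : ℝ) ≤ N := by exact_mod_cast hN
  set D : ℝ := C₁ * (N : ℝ) ^ (ε / 2) with hD
  have hD0 : 0 ≤ D := by positivity
  have hDb : ∀ k ∈ Icc 1 (N * N), (k.divisors.card : ℝ) ≤ D := by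
    intro k hk
    rw [mem_Icc] at hk
    refine (hdiv k hk.1).trans ?_
    rw [hD]
    apply mul_le_mul_of_nonneg_left _ hC₁.le
    calc (k : ℝ) ^ (ε / 4) ≤ ((N : ℝ) * N) ^ (ε / 4) := by
          apply Real.rpow_le_rpow (by positivity) _ (by positivity)
          exact_mod_cast hk.2
      _ = (N : ℝ) ^ (ε / 2) := by
          rw [Real.mul_rpow hN0.le hN0.le, ← Real.rpow_add hN0]
          congr 1
          ring
  set E : ℝ := D * (1 + 4 * ((N * N : ℕ) : ℝ) / Λ * (1 + Real.log (N * N : ℕ))) with hE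
  -- every pair
  have hpair : ∀ n₁ ∈ I, ∀ n₃ ∈ I, ∑ n₂ ∈ I, ∑ n₄ ∈ I,
      g Λ (u * (Real.log n₁ - Real.log n₂ + Real.log n₃ - Real.log n₄)) ≤ E := by
    intro n₁ h₁ n₃ h₃
    obtain ⟨a1, a2⟩ := hI _ h₁
    obtain ⟨a3, a4⟩ := hI _ h₃
    refine le_trans ?_ (sum_pair hI (m := n₁ * n₃) (Nat.mul_pos a1 a3)
      (Nat.mul_le_mul a2 a4) hΛ hD0 hDb)
    apply Finset.sum_le_sum
    intro n₂ h₂
    apply Finset.sum_le_sum
    intro n₄ h₄
    obtain ⟨b1, b2⟩ := hI _ h₂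
    obtain ⟨b3, b4⟩ := hI _ h₄
    have e1 : Real.log n₁ - Real.log n₂ + Real.log n₃ - Real.log n₄ =
        Real.log (n₁ * n₃ : ℕ) - Real.log (n₂ * n₄ : ℕ) := by
      have c1 : (n₁ : ℝ) ≠ 0 := by exact_mod_cast (show n₁ ≠ 0 by omega)
      have c2 : (n₂ : ℝ) ≠ 0 := by exact_mod_cast (show n₂ ≠ 0 by omega)
      have c3 : (n₃ : ℝ) ≠ 0 := by exact_mod_cast (show n₃ ≠ 0 by omega)
      have c4 : (n₄ : ℝ) ≠ 0 := by exact_mod_cast (show n₄ ≠ 0 by omega)
      push_cast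
      rw [Real.log_mul c1 c3, Real.log_mul c2 c4]
      ring
    rw [e1]
    apply g_mono hΛ
    rw [abs_mul]
    have := mul_le_mul_of_nonneg_right hu
      (abs_nonneg (Real.log (n₁ * n₃ : ℕ) - Real.log (n₂ * n₄ : ℕ)))
    linarith
  have hsum : ∑ n₁ ∈ I, ∑ n₂ ∈ I, ∑ n₃ ∈ I, ∑ n₄ ∈ I,
      g Λ (u * (Real.log n₁ - Real.log n₂ + Real.log n₃ - Real.log n₄)) ≤ (I.card : ℝ) ^ 2 * E := by
    calc _ = ∑ n₁ ∈ I, ∑ n₃ ∈ I, ∑ n₂ ∈ I, ∑ n₄ ∈ I,
          g Λ (u * (Real.log n₁ - Real.log n₂ + Real.log n₃ - Real.log n₄)) := by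
          apply Finset.sum_congr rfl
          intro n₁ _
          exact Finset.sum_comm
      _ ≤ ∑ n₁ ∈ I, ∑ n₃ ∈ I, E :=
          Finset.sum_le_sum fun n₁ h₁ => Finset.sum_le_sum fun n₃ h₃ => hpair n₁ h₁ n₃ h₃
      _ = (I.card : ℝ) ^ 2 * E := by
          rw [Finset.sum_const, Finset.sum_const, nsmul_eq_mul, nsmul_eq_mul]
          ring
  refine hsum.trans ?_
  -- the final estimate
  have hNN : ((N * N : ℕ) : ℝ) = (N : ℝ) ^ 2 := by
    push_cast
    ring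
  have hpow : (N : ℝ) ^ (ε / 2) * (N : ℝ) ^ (ε / 2) = (N : ℝ) ^ ε := by
    rw [← Real.rpow_add hN0]
    congr 1
    ring
  have h3 : (1 : ℝ) ≤ (N : ℝ) ^ (ε / 2) := Real.one_le_rpow hN1 (by positivity)
  have hq0 : 0 ≤ (N : ℝ) ^ 2 / Λ := by positivity
  have hE' : E ≤ C₁ * (4 * C₂) * (N : ℝ) ^ ε * (1 + (N : ℝ) ^ 2 / Λ) := by
    have s1 : 1 + 4 * ((N * N : ℕ) : ℝ) / Λ * (1 + Real.log (N * N : ℕ)) ≤
        4 * C₂ * (N : ℝ) ^ (ε / 2) * (1 + (N : ℝ) ^ 2 / Λ) := by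
      have s2 := hlog N hN
      have s3 : 4 * ((N * N : ℕ) : ℝ) / Λ * (1 + Real.log (N * N : ℕ)) ≤
          4 * ((N * N : ℕ) : ℝ) / Λ * (C₂ * (N : ℝ) ^ (ε / 2)) :=
        mul_le_mul_of_nonneg_left s2 (by positivity)
      rw [hNN] at s3 ⊢
      have s4 : 1 ≤ 4 * C₂ * (N : ℝ) ^ (ε / 2) := by
        have : 1 ≤ C₂ * (N : ℝ) ^ (ε / 2) := by
          calc (1 : ℝ) = 1 * 1 := by ring
            _ ≤ C₂ * (N : ℝ) ^ (ε / 2) := mul_le_mul hC₂1 h3 zero_le_one (by linarith)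
        linarith
      have s5 : 4 * C₂ * (N : ℝ) ^ (ε / 2) * (1 + (N : ℝ) ^ 2 / Λ) =
          4 * C₂ * (N : ℝ) ^ (ε / 2) + 4 * (N : ℝ) ^ 2 / Λ * (C₂ * (N : ℝ) ^ (ε / 2)) := by
        ring
      rw [s5]
      linarith
    rw [hE, hD]
    calc C₁ * (N : ℝ) ^ (ε / 2) * (1 + 4 * ((N * N : ℕ) : ℝ) / Λ * (1 + Real.log (N * N : ℕ)))
        ≤ C₁ * (N : ℝ) ^ (ε / 2) * (4 * C₂ * (N : ℝ) ^ (ε / 2) * (1 + (N : ℝ) ^ 2 / Λ)) :=
          mul_le_mul_of_nonneg_left s1 (by positivity)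
      _ = C₁ * (4 * C₂) * ((N : ℝ) ^ (ε / 2) * (N : ℝ) ^ (ε / 2)) * (1 + (N : ℝ) ^ 2 / Λ) := by
          ring
      _ = _ := by rw [hpow]
  have hC : C₁ * (4 * C₂) ≤ max 1 (C₁ * (4 * C₂)) := le_max_right _ _
  calc (I.card : ℝ) ^ 2 * E
      ≤ (I.card : ℝ) ^ 2 * (C₁ * (4 * C₂) * (N : ℝ) ^ ε * (1 + (N : ℝ) ^ 2 / Λ)) :=
        mul_le_mul_of_nonneg_left hE' (by positivity)
    _ = C₁ * (4 * C₂) * ((N : ℝ) ^ ε * (I.card : ℝ) ^ 2 * (1 + (N : ℝ) ^ 2 / Λ)) := by ring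
    _ ≤ max 1 (C₁ * (4 * C₂)) * ((N : ℝ) ^ ε * (I.card : ℝ) ^ 2 * (1 + (N : ℝ) ^ 2 / Λ)) :=
        mul_le_mul_of_nonneg_right hC (by positivity)
    _ = _ := by ring

end Pool.Agent.K7.H4.ML
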