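import Pool.Agent.K7.H4.OG_S0

set_option autoImplicit false

/-! Jobs S2 and S3 of project OG. -/

namespace Pool.Agent.K7.H4.OG

open Pool.Agent.K7.H50.OG

/-- the place of an index among the seven runs -/
theorem place {u1 u2 u3 u4 u5 u6 i : ℕ} {cls : ℕ → Fin 5} {c1 c2 c3 c4 c5 c6 : Fin 5}
    (hi : 1 ≤ i) (hk : i ≤ u6)
    (k1 : ∀ i, 1 ≤ i → i ≤ u1 → cls i = c1) (k2 : ∀ i, u1 < i → i ≤ u2 → cls i = c2)
    (k3 : ∀ i, u2 < i → i ≤ u3 → cls i = c3) (k4 : ∀ i, u3 < i → i ≤ u4 → cls i = c4)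
    (k5 : ∀ i, u4 < i → i ≤ u5 → cls i = c5) (k6 : ∀ i, u5 < i → i ≤ u6 → cls i = c6) :
    (cls i = c1) ∨ (cls i = c2) ∨ (u2 < i ∧ i ≤ u3 ∧ cls i = c3) ∨
    (u3 < i ∧ i ≤ u4 ∧ cls i = c4) ∨ (cls i = c5) ∨ (cls i = c6) := by
  rcases Nat.lt_or_ge u1 i with h1 | h1
  · rcases Nat.lt_or_ge u2 i with h2 | h2
    · rcases Nat.lt_or_ge u3 i with h3 | h3
      · rcases Nat.lt_or_ge u4 i with h4 | h4
        · rcases Nat.lt_or_ge u5 i with h5 | h5
          · exact Or.inr (Or.inr (Or.inr (Or.inr (Or.inr (k6 i h5 hk)))))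
          · exact Or.inr (Or.inr (Or.inr (Or.inr (Or.inl (k5 i h4 h5)))))
        · exact Or.inr (Or.inr (Or.inr (Or.inl ⟨h3, h4, k4 i h3 h4⟩)))
      · exact Or.inr (Or.inr (Or.inl ⟨h2, h3, k3 i h2 h3⟩))
    · exact Or.inr (Or.inl (k2 i h1 h2))
  · exact Or.inl (k1 i hi h1)

/-- JOB S2 -/
theorem stS2 : StS2 := by
  intro k E a hL hin1 hin2
  by_cases hD : Dead k E
  · exact Or.inl hD
  right
  have ha := hL.ha
  have hb := hL.hb
  obtain ⟨cls, u1, u2, u3, u4, u5, u6, hr, ⟨b1, b2, b3, b4, b5, b6, b7, b8, b9, b10, b11, b12, b13⟩,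
    k1, k2, k3, k4, k5, k6, k7⟩ := seven ha hb 1 3 0 4 1 3 2 hD
  have ha6 : a ≤ u6 := by omega
  have h0 : ∀ i, 1 ≤ i → i ≤ u6 → cls i = 0 → u2 < i ∧ i ≤ u3 := by
    intro i i1 i2 i3
    rcases place i1 i2 k1 k2 k3 k4 k5 k6 with e | e | ⟨e1, e2, -⟩ | ⟨-, -, e⟩ | e | e
    · rw [i3] at e; exact absurd e (by decide)
    · rw [i3] at e; exact absurd e (by decide)
    · exact ⟨e1, e2⟩
    · rw [i3] at e; exact absurd e (by decide)
    · rw [i3] at e; exact absurd e (by decide)
    · rw [i3] at e; exact absurd e (by decide)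
  have h4 : ∀ i, 1 ≤ i → i ≤ u6 → cls i = 4 → u3 < i ∧ i ≤ u4 := by
    intro i i1 i2 i3
    rcases place i1 i2 k1 k2 k3 k4 k5 k6 with e | e | ⟨-, -, e⟩ | ⟨e1, e2, -⟩ | e | e
    · rw [i3] at e; exact absurd e (by decide)
    · rw [i3] at e; exact absurd e (by decide)
    · rw [i3] at e; exact absurd e (by decide)
    · exact ⟨e1, e2⟩
    · rw [i3] at e; exact absurd e (by decide)
    · rw [i3] at e; exact absurd e (by decide)
  have h2 : ∀ i, 1 ≤ i → i ≤ u6 → cls i ≠ 2 := by
    intro i i1 i2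
    rcases place i1 i2 k1 k2 k3 k4 k5 k6 with e | e | ⟨-, -, e⟩ | ⟨-, -, e⟩ | e | e <;>
    · rw [e]; decide
  -- `a` is not in the single classes if `k` is in the last class
  have hz : u6 < k → u2 < a → a ≤ u4 → False := by
    intro h1 h2 h3
    have h4 := hr a k (by omega) (by omega) le_rfl hL.ek
    rw [k7 k h1 le_rfl] at h4
    rcases Nat.lt_or_ge u3 a with h5 | h5
    · rw [k4 a h5 h3] at h4; revert h4; decide
    · rw [k3 a h2 h5] at h4; revert h4; decide
  have n1 : ∃ i, 1 ≤ i ∧ i ≤ u6 ∧ sd (cls i) := by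
    by_contra hno
    have e2 : u1 = 0 := by
      by_contra h
      exact hno ⟨u1, by omega, by omega, by rw [k1 u1 (by omega) le_rfl]; decide⟩
    have e4 : u3 = u2 := by
      by_contra h
      exact hno ⟨u3, by omega, by omega, by rw [k3 u3 (by omega) le_rfl]; decide⟩
    have e6 : u5 = u4 := by
      by_contra h
      exact hno ⟨u5, by omega, by omega, by rw [k5 u5 (by omega) le_rfl]; decide⟩
    exact hz (by omega) (by omega) (by omega)
  have n2 : ∃ i, 1 ≤ i ∧ i ≤ u6 ∧ ¬ sd (cls i) := by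
    by_contra hno
    have e2 : u2 = u1 := by
      by_contra h
      exact hno ⟨u2, by omega, by omega, by rw [k2 u2 (by omega) le_rfl]; decide⟩
    have e4 : u4 = u3 := by
      by_contra h
      exact hno ⟨u4, by omega, by omega, by rw [k4 u4 (by omega) le_rfl]; decide⟩
    have e6 : u6 = u5 := by
      by_contra h
      exact hno ⟨u6, by omega, by omega, by rw [k6 u6 (by omega) le_rfl]; decide⟩
    exact hz (by omega) (by omega) (by omega)
  obtain ⟨e3, e4, hE⟩ := key_gen hL ha6 hr b5 b7 b12 b13 h0 h4 h2 n1 n2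
  have ea : u3 = a := by
    rcases Nat.lt_trichotomy u3 a with h | h | h
    · exact absurd hE (hin1 u3 u4 (by omega) (by omega) (by omega))
    · exact h
    · exact absurd hE (hin2 u3 u4 (by omega) (by omega) (by omega))
  have e6 : u6 = k := by
    by_contra h
    exact hz (by omega) (by omega) (by omega)
  -- `1` is in class `3`
  have f1 : u1 = 0 := by
    by_contra h
    have h4 := hr 1 (a + 1) le_rfl (by omega) (by omega) hL.e1
    rw [k1 1 le_rfl (by omega), k4 (a + 1) (by omega) (by omega)] at h4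
    revert h4; decide
  have f5 : u5 = k := by
    by_contra h
    have h4 := hr a k (by omega) (by omega) le_rfl hL.ek
    rw [k3 a (by omega) (by omega), k6 k (by omega) (by omega)] at h4
    revert h4; decide
  intro i j h1 h2 h3 h4
  rcases Nat.lt_or_ge a i with hi | hi
  · exact absurd h4 (hin2 i j hi h2 h3)
  rcases Nat.lt_or_ge a j with hj | hj
  · rcases Nat.lt_or_ge i a with hi' | hi'
    · rcases Nat.lt_or_ge (a + 1) j with hj' | hj'
      · have h5 := hr i j h1 h2 h3 h4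
        rw [k2 i (by omega) (by omega), k5 j (by omega) (by omega)] at h5
        exact absurd h5 (by decide)
      · left; omega
    · right; omega
  · exact absurd h4 (hin1 i j h1 h2 hj)

/-- JOB S3 -/
theorem stS3 : StS3 := by
  intro k E a hL hna
  by_cases hD : Dead k E
  · exact Or.inl hD
  right
  have ha := hL.ha
  have hb := hL.hb
  obtain ⟨cls, u1, u2, u3, u4, u5, u6, hr, ⟨b1, b2, b3, b4, b5, b6, b7, b8, b9, b10, b11, b12, b13⟩,
    k1, k2, k3, k4, k5, k6, k7⟩ := seven ha hb 3 1 0 4 3 1 2 hD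
  have ha6 : a ≤ u6 := by omega
  have h0 : ∀ i, 1 ≤ i → i ≤ u6 → cls i = 0 → u2 < i ∧ i ≤ u3 := by
    intro i i1 i2 i3
    rcases place i1 i2 k1 k2 k3 k4 k5 k6 with e | e | ⟨e1, e2, -⟩ | ⟨-, -, e⟩ | e | e
    · rw [i3] at e; exact absurd e (by decide)
    · rw [i3] at e; exact absurd e (by decide)
    · exact ⟨e1, e2⟩
    · rw [i3] at e; exact absurd e (by decide)
    · rw [i3] at e; exact absurd e (by decide)
    · rw [i3] at e; exact absurd e (by decide)
  have h4 : ∀ i, 1 ≤ i → i ≤ u6 → cls i = 4 → u3 < i ∧ i ≤ u4 := by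
    intro i i1 i2 i3
    rcases place i1 i2 k1 k2 k3 k4 k5 k6 with e | e | ⟨-, -, e⟩ | ⟨e1, e2, -⟩ | e | e
    · rw [i3] at e; exact absurd e (by decide)
    · rw [i3] at e; exact absurd e (by decide)
    · rw [i3] at e; exact absurd e (by decide)
    · exact ⟨e1, e2⟩
    · rw [i3] at e; exact absurd e (by decide)
    · rw [i3] at e; exact absurd e (by decide)
  have h2 : ∀ i, 1 ≤ i → i ≤ u6 → cls i ≠ 2 := by
    intro i i1 i2
    rcases place i1 i2 k1 k2 k3 k4 k5 k6 with e | e | ⟨-, -, e⟩ | ⟨-, -, e⟩ | e | e <;>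
    · rw [e]; decide
  -- `a` is not in the single classes if `k` is in the last class
  have hz : u6 < k → u2 < a → a ≤ u4 → False := by
    intro h1 h2 h3
    have h4 := hr a k (by omega) (by omega) le_rfl hL.ek
    rw [k7 k h1 le_rfl] at h4
    rcases Nat.lt_or_ge u3 a with h5 | h5
    · rw [k4 a h5 h3] at h4; revert h4; decide
    · rw [k3 a h2 h5] at h4; revert h4; decide
  have n1 : ∃ i, 1 ≤ i ∧ i ≤ u6 ∧ sd (cls i) := by
    by_contra hno
    have e2 : u2 = u1 := by
      by_contra h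
      exact hno ⟨u2, by omega, by omega, by rw [k2 u2 (by omega) le_rfl]; decide⟩
    have e4 : u3 = u2 := by
      by_contra h
      exact hno ⟨u3, by omega, by omega, by rw [k3 u3 (by omega) le_rfl]; decide⟩
    have e6 : u6 = u5 := by
      by_contra h
      exact hno ⟨u6, by omega, by omega, by rw [k6 u6 (by omega) le_rfl]; decide⟩
    exact hz (by omega) (by omega) (by omega)
  have n2 : ∃ i, 1 ≤ i ∧ i ≤ u6 ∧ ¬ sd (cls i) := by
    by_contra hno
    have e2 : u1 = 0 := by
      by_contra h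
      exact hno ⟨u1, by omega, by omega, by rw [k1 u1 (by omega) le_rfl]; decide⟩
    have e4 : u4 = u3 := by
      by_contra h
      exact hno ⟨u4, by omega, by omega, by rw [k4 u4 (by omega) le_rfl]; decide⟩
    have e6 : u5 = u4 := by
      by_contra h
      exact hno ⟨u5, by omega, by omega, by rw [k5 u5 (by omega) le_rfl]; decide⟩
    exact hz (by omega) (by omega) (by omega)
  obtain ⟨e3, e4, hE⟩ := key_gen hL ha6 hr b5 b7 b12 b13 h0 h4 h2 n1 n2
  have e1a := hr 1 (a + 1) le_rfl (by omega) (by omega) hL.e1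
  have eak := hr a k (by omega) (by omega) le_rfl hL.ek
  -- `u3 < a`
  have h3a : u3 < a := by
    rcases Nat.lt_trichotomy u3 a with h | h | h
    · exact h
    · have h5 : u4 = a + 1 := by omega
      rw [h, h5] at hE
      exact absurd hE hna
    · -- `1` in class `3`, `a + 1` in class `1` or `0`
      rw [k1 1 le_rfl (by omega)] at e1a
      rcases Nat.lt_or_ge u2 (a + 1) with h4 | h4
      · rw [k3 (a + 1) h4 (by omega)] at e1a; exact absurd e1a (by decide)
      · rw [k2 (a + 1) (by omega) h4] at e1a; exact absurd e1a (by decide)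
  -- `k` is in the last class
  have h5k : u5 < k := by omega
  have ha5 : a ≤ u5 := by omega
  have e6 : u6 < k := by
    by_contra h
    rw [k6 k h5k (by omega)] at eak
    rcases Nat.lt_or_ge u4 a with h8 | h8
    · rw [k5 a h8 ha5] at eak; exact absurd eak (by decide)
    · rw [k4 a h3a h8] at eak; exact absurd eak (by decide)
  have h4a : u4 < a := by
    by_contra h
    exact hz e6 (by omega) (by omega)
  have ska : ¬ sd (cls a) := by
    rw [k5 a h4a ha5]; decide
  have skk : ¬ sd (cls k) := by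
    rw [k7 k e6 le_rfl]; decide
  refine ⟨u3, fun x => sd (cls x), by omega, by omega, ?_, ?_, ?_, ska, ?_⟩
  · show sd (cls u3)
    rw [k3 u3 (by omega) le_rfl]; decide
  · show sd (cls (k - 1))
    rw [k6 (k - 1) (by omega) (by omega)]; decide
  · show ¬ sd (cls (u3 + 1))
    rw [k4 (u3 + 1) (by omega) (by omega)]; decide
  intro i j i1 i2 i3 i4 i5
  have i5' : sd (cls i) ↔ ¬ sd (cls j) := i5
  rcases Nat.lt_or_ge u6 j with hj | hj
  · exfalso
    have hjk : j = k := by omega
    rw [hjk] at i4 i5' i2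
    have hia := hL.uk i i1 i2 i4
    rw [hia] at i5'
    exact ska (i5'.2 skk)
  · obtain ⟨g1, g2, g3, g4⟩ := cross_gen hr b5 b7 b12 h0 h4 h2 i1 i2 hj i4 i5'
    exact ⟨g1, by omega⟩

end Pool.Agent.K7.H4.OG
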