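import Pool.Agent.K7.H50.OG.Basic

set_option autoImplicit false

/-! Jobs S2 and S3 of project OG: common part. -/

namespace Pool.Agent.K7.H4.OG

open Pool.Agent.K7.H50.OG

theorem cut_mono {k : ℕ} {f : ℕ → ℕ} {t t' u u' : ℕ} (htt : t ≤ t') (hu : u ≤ k)
    (h1 : ∀ i, 1 ≤ i → i ≤ u → f i ≤ t) (h2 : ∀ i, u' < i → i ≤ k → t' < f i) : u ≤ u' := by
  by_contra h
  have a1 := h1 u (by omega) le_rfl
  have a2 := h2 u (by omega) hu
  omega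

/-- the cuts of a copy in a word of seven runs with the lengths
`a-1, a-1, 1, 1, k-1-a, k-1-a, 1` -/
theorem seven {k a : ℕ} (ha : 1 < a) (hk : a + 1 < k) (c1 c2 c3 c4 c5 c6 c7 : Fin 5) {E : Gr}
    (hD : ¬ Dead k E) : ∃ (cls : ℕ → Fin 5) (u1 u2 u3 u4 u5 u6 : ℕ),
      (∀ i j, 1 ≤ i → i < j → j ≤ k → E i j → rg (cls i) (cls j)) ∧
      (u1 ≤ a - 1 ∧ u1 ≤ u2 ∧ u2 ≤ u1 + (a - 1) ∧ u2 ≤ u3 ∧ u3 ≤ u2 + 1 ∧ u3 ≤ u4 ∧ u4 ≤ u3 + 1 ∧
        u4 ≤ u5 ∧ u5 ≤ u4 + (k - 1 - a) ∧ u5 ≤ u6 ∧ u6 ≤ u5 + (k - 1 - a) ∧ u6 ≤ k ∧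
        k ≤ u6 + 1) ∧
      (∀ i, 1 ≤ i → i ≤ u1 → cls i = c1) ∧ (∀ i, u1 < i → i ≤ u2 → cls i = c2) ∧
      (∀ i, u2 < i → i ≤ u3 → cls i = c3) ∧ (∀ i, u3 < i → i ≤ u4 → cls i = c4) ∧
      (∀ i, u4 < i → i ≤ u5 → cls i = c5) ∧ (∀ i, u5 < i → i ≤ u6 → cls i = c6) ∧
      (∀ i, u6 < i → i ≤ k → cls i = c7) := by
  obtain ⟨f, hf1, hf2, hf3⟩ : Cop k (2 * k - 1) E (fun x y =>
      rg ((fun x => if x ≤ a - 1 then c1 else if x ≤ 2 * a - 2 then c2 else if x ≤ 2 * a - 1 then c3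
        else if x ≤ 2 * a then c4 else if x ≤ a + k - 1 then c5 else if x ≤ 2 * k - 2 then c6
        else c7) x)
      ((fun x => if x ≤ a - 1 then c1 else if x ≤ 2 * a - 2 then c2 else if x ≤ 2 * a - 1 then c3
        else if x ≤ 2 * a then c4 else if x ≤ a + k - 1 then c5 else if x ≤ 2 * k - 2 then c6
        else c7) y)) := by
    by_contra h
    exact hD ⟨_, h⟩
  obtain ⟨u1, p1, q1, r1⟩ := cut hf2 (a - 1)
  obtain ⟨u2, p2, q2, r2⟩ := cut hf2 (2 * a - 2)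
  obtain ⟨u3, p3, q3, r3⟩ := cut hf2 (2 * a - 1)
  obtain ⟨u4, p4, q4, r4⟩ := cut hf2 (2 * a)
  obtain ⟨u5, p5, q5, r5⟩ := cut hf2 (a + k - 1)
  obtain ⟨u6, p6, q6, r6⟩ := cut hf2 (2 * k - 2)
  have m1 : u1 ≤ u2 := cut_mono (by omega) p1 q1 r2
  have m2 : u2 ≤ u3 := cut_mono (by omega) p2 q2 r3
  have m3 : u3 ≤ u4 := cut_mono (by omega) p3 q3 r4
  have m4 : u4 ≤ u5 := cut_mono (by omega) p4 q4 r5
  have m5 : u5 ≤ u6 := cut_mono (by omega) p5 q5 r6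
  have n0 := run_card hf2 (t := 0) (u := 0) p1 (Nat.zero_le _)
    (fun i h1 h2 => by have := (hf1 i h1 h2).1; omega) q1
  have n1 := run_card hf2 p2 m1 r1 q2
  have n2 := run_card hf2 p3 m2 r2 q3
  have n3 := run_card hf2 p4 m3 r3 q4
  have n4 := run_card hf2 p5 m4 r4 q5
  have n5 := run_card hf2 p6 m5 r5 q6
  have n6 := run_card hf2 (t' := 2 * k - 1) le_rfl p6 r6 (fun i h1 h2 => (hf1 i h1 h2).2)
  refine ⟨fun i => (fun x => if x ≤ a - 1 then c1 else if x ≤ 2 * a - 2 then c2 else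
    if x ≤ 2 * a - 1 then c3 else if x ≤ 2 * a then c4 else if x ≤ a + k - 1 then c5 else
    if x ≤ 2 * k - 2 then c6 else c7) (f i), u1, u2, u3, u4, u5, u6, hf3, by omega,
    fun i h1 h2 => ?_, fun i h1 h2 => ?_, fun i h1 h2 => ?_, fun i h1 h2 => ?_,
    fun i h1 h2 => ?_, fun i h1 h2 => ?_, fun i h1 h2 => ?_⟩
  · have e1 := q1 i h1 h2
    simp only
    rw [if_pos e1]
  · have e1 := r1 i h1 (by omega)
    have e2 := q2 i (by omega) h2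
    simp only
    rw [if_neg (by omega), if_pos e2]
  · have e1 := r2 i h1 (by omega)
    have e2 := q3 i (by omega) h2
    simp only
    rw [if_neg (by omega), if_neg (by omega), if_pos e2]
  · have e1 := r3 i h1 (by omega)
    have e2 := q4 i (by omega) h2
    simp only
    rw [if_neg (by omega), if_neg (by omega), if_neg (by omega), if_pos e2]
  · have e1 := r4 i h1 (by omega)
    have e2 := q5 i (by omega) h2
    simp only
    rw [if_neg (by omega), if_neg (by omega), if_neg (by omega), if_neg (by omega), if_pos e2]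
  · have e1 := r5 i h1 (by omega)
    have e2 := q6 i (by omega) h2
    simp only
    rw [if_neg (by omega), if_neg (by omega), if_neg (by omega), if_neg (by omega),
      if_neg (by omega), if_pos e2]
  · have e1 := r6 i h1 h2
    simp only
    rw [if_neg (by omega), if_neg (by omega), if_neg (by omega), if_neg (by omega),
      if_neg (by omega), if_neg (by omega)]

/-- the classes of the first side -/
def sd (c : Fin 5) : Prop := c = 0 ∨ c = 1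

instance (c : Fin 5) : Decidable (sd c) := by unfold sd; infer_instance

theorem rg_cross : ∀ x y : Fin 5, rg x y → x ≠ 2 → y ≠ 2 → (sd x ↔ ¬ sd y) →
    (x = 0 ∧ y = 4) ∨ (x = 4 ∧ y = 0) := by decide

theorem iff_of_not_cross {p q : Prop} (h : ¬ (p ↔ ¬ q)) : p ↔ q := by
  by_cases hp : p <;> by_cases hq : q <;> simp_all

/-- an edge between the two sides joins the two single classes -/
theorem cross_gen {k : ℕ} {E : Gr} {cls : ℕ → Fin 5} {u2 u3 u4 u6 : ℕ}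
    (hr : ∀ i j, 1 ≤ i → i < j → j ≤ k → E i j → rg (cls i) (cls j))
    (hu3 : u3 ≤ u2 + 1) (hu4 : u4 ≤ u3 + 1) (hu6 : u6 ≤ k)
    (h0 : ∀ i, 1 ≤ i → i ≤ u6 → cls i = 0 → u2 < i ∧ i ≤ u3)
    (h4 : ∀ i, 1 ≤ i → i ≤ u6 → cls i = 4 → u3 < i ∧ i ≤ u4)
    (h2 : ∀ i, 1 ≤ i → i ≤ u6 → cls i ≠ 2)
    {i j : ℕ} (hi : 1 ≤ i) (hij : i < j) (hj : j ≤ u6) (hE : E i j)
    (hc : sd (cls i) ↔ ¬ sd (cls j)) : i = u3 ∧ j = u4 ∧ u3 = u2 + 1 ∧ u4 = u3 + 1 := by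
  have a1 : i ≤ u6 := by omega
  have a2 : j ≤ k := by omega
  have a3 : 1 ≤ j := by omega
  rcases rg_cross _ _ (hr i j hi hij a2 hE) (h2 i hi a1) (h2 j a3 hj) hc with ⟨e1, e2⟩ | ⟨e1, e2⟩
  · have f1 := h0 i hi a1 e1
    have f2 := h4 j a3 hj e2
    clear h0 h4 h2 hr hc
    omega
  · have f1 := h4 i hi a1 e1
    have f2 := h0 j a3 hj e2
    clear h0 h4 h2 hr hc
    omega

/-- the edge between the single classes -/
theorem key_gen {k : ℕ} {E : Gr} {a : ℕ} (hL : Lf2 k E a (a + 1)) {cls : ℕ → Fin 5}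
    {u2 u3 u4 u6 : ℕ} (ha6 : a ≤ u6)
    (hr : ∀ i j, 1 ≤ i → i < j → j ≤ k → E i j → rg (cls i) (cls j))
    (hu3 : u3 ≤ u2 + 1) (hu4 : u4 ≤ u3 + 1) (hu6 : u6 ≤ k) (hk6 : k ≤ u6 + 1)
    (h0 : ∀ i, 1 ≤ i → i ≤ u6 → cls i = 0 → u2 < i ∧ i ≤ u3)
    (h4 : ∀ i, 1 ≤ i → i ≤ u6 → cls i = 4 → u3 < i ∧ i ≤ u4)
    (h2 : ∀ i, 1 ≤ i → i ≤ u6 → cls i ≠ 2)
    (n1 : ∃ i, 1 ≤ i ∧ i ≤ u6 ∧ sd (cls i)) (n2 : ∃ i, 1 ≤ i ∧ i ≤ u6 ∧ ¬ sd (cls i)) :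
    u3 = u2 + 1 ∧ u4 = u3 + 1 ∧ E u3 u4 := by
  by_contra hno
  obtain ⟨S, hS1, hS2⟩ : ∃ S : ℕ → Prop, (∀ i, i ≤ u6 → (S i ↔ sd (cls i))) ∧
      ∀ i, u6 < i → (S i ↔ sd (cls a)) := by
    refine ⟨fun i => if i ≤ u6 then sd (cls i) else sd (cls a), fun i hi => ?_, fun i hi => ?_⟩
    · simp only [if_pos hi]
    · simp only [if_neg (Nat.not_le.2 hi)]
  have hcl : ∀ i j, 1 ≤ i → i < j → j ≤ k → E i j → (S i ↔ S j) := by
    intro i j h5 h6 h7 h8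
    rcases Nat.lt_or_ge u6 j with hj | hj
    · have hjk : j = k := by omega
      subst hjk
      have hia := hL.uk i h5 h6 h8
      subst hia
      rw [hS1 i ha6, hS2 j hj]
    · have hi : i ≤ u6 := by omega
      apply iff_of_not_cross
      rw [hS1 i hi, hS1 j hj]
      intro hc
      obtain ⟨e1, e2, e3, e4⟩ := cross_gen hr hu3 hu4 hu6 h0 h4 h2 h5 h6 hj h8 hc
      rw [e1, e2] at h8
      exact hno ⟨e3, e4, h8⟩
  obtain ⟨i, i1, i2, i3⟩ := n1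
  obtain ⟨j, j1, j2, j3⟩ := n2
  have h9 := hL.con.closed S hcl i1 (le_trans i2 hu6) ((hS1 i i2).2 i3) j j1 (le_trans j2 hu6)
  exact j3 ((hS1 j j2).1 h9)

end Pool.Agent.K7.H4.OG
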